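import Mathlib
import Pool.Agent.Helper945.PDef
import Pool.Agent.Y999.PRange

set_option autoImplicit false

open Filter Topology MeasureTheory
open scoped NNReal

namespace Pool.Agent.Results.MP_5fed26_pr.ExactRange

open Pool.Agent.Helper945.PDef

/-- The set of all values `m(M;p) = inf {p t : 0 ≤ t ≤ T}`, where `p` runs through the standard
p-functions with `p T = M`. -/
def infima (T : ℝ≥0) (M : ℝ) : Set ℝ :=
  {m : ℝ | ∃ p : ℝ≥0 → ℝ, IsStd p ∧ p T = M ∧ IsGLB (p '' Set.Icc 0 T) m}

/-- The exact joint range of `p T` and of the infimum of `p` on `[0,T]`, for standard p-functions: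
for `0 < M ≤ 1` the infima are exactly the `m` with `0 < m ≤ M` and `1 + log M ≤ m`; each of them
is the minimum on `[0,T]` of some standard p-function with `p T = M`; their infimum `I(M)` is
`max 0 (1 + log M)`, and it is attained if and only if `M > 1 / e`. -/
theorem result (T : ℝ≥0) (hT : 0 < T) (M : ℝ) (hM0 : 0 < M) (hM1 : M ≤ 1) :
    infima T M = {m : ℝ | 0 < m ∧ m ≤ M ∧ 1 + Real.log M ≤ m} ∧
    (∀ m ∈ infima T M, ∃ p : ℝ≥0 → ℝ, IsStd p ∧ p T = M ∧ IsLeast (p '' Set.Icc 0 T) m) ∧
    IsGLB (infima T M) (max 0 (1 + Real.log M)) ∧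
    (max 0 (1 + Real.log M) ∈ infima T M ↔ Real.exp (-1) < M) := by
  have hr := Pool.Agent.Y999.PRange.range_iff T hT M
  have heq : infima T M = {m : ℝ | 0 < m ∧ m ≤ M ∧ 1 + Real.log M ≤ m} := by
    ext m
    constructor
    · intro hm
      exact (hr m hM0 hM1).1 hm
    · intro hm
      obtain ⟨p, hp, hpT, hl⟩ := (hr m hM0 hM1).2 hm
      exact ⟨p, hp, hpT, hl.isGLB⟩
  have hlogM : 1 + Real.log M ≤ M := by
    have := Real.log_le_sub_one_of_pos hM0
    linarith
  refine ⟨heq, ?_, ?_, ?_⟩
  · intro m hm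
    exact (hr m hM0 hM1).2 ((hr m hM0 hM1).1 hm)
  · rw [heq]
    constructor
    · rintro m ⟨h1, -, h3⟩
      exact max_le h1.le h3
    · intro b hb
      by_contra hcon
      push Not at hcon
      have h1 : 0 < b := lt_of_le_of_lt (le_max_left _ _) hcon
      have h2 : 1 + Real.log M < b := lt_of_le_of_lt (le_max_right _ _) hcon
      have h3 : b ≤ M := hb ⟨hM0, le_rfl, hlogM⟩
      set c := (b + max 0 (1 + Real.log M)) / 2 with hc
      have hc0 : 0 ≤ max 0 (1 + Real.log M) := le_max_left _ _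
      have hc1 : 1 + Real.log M ≤ max 0 (1 + Real.log M) := le_max_right _ _
      have h4 := hb (show c ∈ {m : ℝ | 0 < m ∧ m ≤ M ∧ 1 + Real.log M ≤ m} from
        ⟨by linarith, by linarith, by linarith⟩)
      linarith
  · rw [heq]
    constructor
    · rintro ⟨h1, -, -⟩
      have h2 : 0 < 1 + Real.log M := by
        rcases lt_max_iff.1 h1 with h | h
        · exact absurd h (lt_irrefl _)
        · exact h
      rw [← Real.lt_log_iff_exp_lt hM0]
      linarith
    · intro h
      rw [← Real.lt_log_iff_exp_lt hM0] at h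
      exact ⟨lt_max_of_lt_right (by linarith), max_le hM0.le hlogM, le_max_right _ _⟩

end Pool.Agent.Results.MP_5fed26_pr.ExactRange
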